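import Mathlib
import Pool.Agent.Y156.L.Thms

/-!
# The Tate conjecture for higher Chow groups and products with almost all abelian varieties
-/

set_option autoImplicit false

namespace Pool.Agent.Results.MP_81b968_ag.AlmostAllAbelianFactors

open Pool.Agent.Y156.L

/-- Let `r < g i` for all `i` and let `E` be a number field. Almost all families of abelian
varieties of dimensions `g i` over the field with `q` elements, given by their Weil polynomials
`f i`, have the property `TateForRankOver E q r f`. -/
theorem result {I : Type} [Fintype I] (g : I → ℕ) (r : ℕ) (hr : ∀ i, r < g i)
    (E : IntermediateField ℚ ℂ) [FiniteDimensional ℚ E] :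
    AlmostAll g fun q f => TateForRankOver E q r f :=
  count_tate g r hr E

end Pool.Agent.Results.MP_81b968_ag.AlmostAllAbelianFactors
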