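import Pool.Agent.Y101.Th.TBMain

/-!
# Surjectivity of the regulators over finite fields and trilinear forms
-/

set_option autoImplicit false

open CategoryTheory AlgebraicGeometry Pool.Agent.Y116.UV Pool.Agent.Y101.Th

namespace Pool.Agent.Results.MP_81b968_ag.TrilinearForms

variable {k Ω : Type} [Field k] [Field Ω] [CharZero Ω] {T : Homology k Ω}

/-- **The Tate conjecture for higher Chow groups and trilinear forms.** Let `k` be a finite field. The
regulators are surjective onto the invariants of the Frobenius for all smooth separated schemes of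
finite type over `k` if and only if the conjecture of Tate and Beilinson is true for the smooth affine
cubic hypersurfaces `t(x, y, z) = 1` for all trilinear forms `t` over `k`; over a prime field the
forms with coefficients `0` and `1` are sufficient. If it is true for the forms `t` one of whose
blocks of variables has at most `d + 2` variables, then it is true for all separated schemes of finite
type of dimension at most `d`. It is true for the forms `t` one of whose blocks has at most three
variables; in particular for these forms the regulators of `t(x, y, z) = 1` are bijective. -/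
theorem result [Finite k] (hT : IsHomology T) (hK : TBKnown T) :
    ((∀ X : Sch k, FT True X → Smooth X.hom → Onto T X) ↔
      ∀ (a b c : ℕ) (t : Fin a → Fin b → Fin c → k), TB T (hypS t)) ∧
    ((Nat.card k).Prime → ((∀ X : Sch k, FT True X → Smooth X.hom → Onto T X) ↔
      ∀ (a b c : ℕ) (H : Finset (Fin a × Fin b × Fin c)), TB T (tripS k H))) ∧
    (∀ d : ℕ, (∀ (a b c : ℕ) (t : Fin a → Fin b → Fin c → k),
        (a ≤ d + 2 ∨ b ≤ d + 2 ∨ c ≤ d + 2) → TB T (hypS t)) →
      ∀ X : Sch k, FT True X → topologicalKrullDim X.left ≤ d → TB T X ∧ Onto T X) ∧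
    ∀ (a b c : ℕ) (t : Fin a → Fin b → Fin c → k), (a ≤ 3 ∨ b ≤ 3 ∨ c ≤ 3) →
      TB T (hypS t) ∧ Onto T (hypS t) ∧ OneToOne T (hypS t) := by
  have hP := bnd_tb hT
  refine ⟨⟨fun h => (tb_smproj hT hK).mp (hK.surjectivity h), fun h X hX _ =>
    onto_of_tb ((gen_all hP.toUni).mpr h X hX)⟩, fun hk => ⟨fun h a b c H => ?_, fun h X hX _ =>
    onto_of_tb (tb_all_prime hT (int_surj hk) h X hX)⟩, fun d h X hX hd => ?_,
    fun a b c t hm => ?_⟩
  · exact tb_all hT ((tb_smproj hT hK).mp (hK.surjectivity h)) _ (ft_aff True)
  · have h1 := (gen_dim hP d).mpr h X hX hd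
    exact ⟨h1, onto_of_tb h1⟩
  · have h1 := gen_curves hP hK.curves a b c t hm
    exact ⟨h1, onto_of_tb h1, one_of_tb h1⟩

end Pool.Agent.Results.MP_81b968_ag.TrilinearForms
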